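import Pool.Agent.L5helper13.TQ.Defs

set_option autoImplicit false

namespace Pool.Agent.L5helper13.TQ

open MvPolynomial

/-- TQ3 -/
theorem coeff_AA (k : Type) [Field k] (n d : ℕ)
    (ρ : (Fin d → kˣ) → MvPolynomial (Fin n) k) (m : ℕ) (F : MvPolynomial (Fin d ⊕ Fin n) k)
    (h : ∀ t : Fin d → kˣ, C ((∏ i, ((t i : kˣ) : k)) ^ m) * ρ t =
      aeval (Sum.elim (fun i : Fin d => (C ((t i : kˣ) : k) : MvPolynomial (Fin n) k))
        (fun l : Fin n => (X l : MvPolynomial (Fin n) k))) F) (e : Fin n →₀ ℕ) :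
    (fun t => coeff e (ρ t)) ∈ AA k d := by
  classical
  let φ : (Fin d ⊕ Fin n →₀ ℕ) → ((Fin d → kˣ) →* kˣ) := fun u =>
    { toFun := fun t => (∏ i, t i ^ u (Sum.inl i)) * ((∏ i, t i) ^ m)⁻¹
      map_one' := by simp
      map_mul' := fun s t => by
        simp only [Pi.mul_apply, mul_pow, Finset.prod_mul_distrib, mul_inv]
        exact mul_mul_mul_comm _ _ _ _ }
  have key : (fun t => coeff e (ρ t)) = ∑ u ∈ F.support,
      (coeff u F * coeff e (∏ l, (X l : MvPolynomial (Fin n) k) ^ u (Sum.inr l))) •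
        (fun t : Fin d → kˣ => ((Units.coeHom k).comp (φ u)) t) := by
    funext t
    have hP : (∏ i, ((t i : kˣ) : k)) ^ m ≠ 0 :=
      pow_ne_zero _ (Finset.prod_ne_zero_iff.2 fun i _ => (t i).ne_zero)
    have h1 := congrArg (coeff e) (h t)
    rw [coeff_C_mul, aeval_def, eval₂_eq', coeff_sum] at h1
    have h2 : coeff e (ρ t) = ((∏ i, ((t i : kˣ) : k)) ^ m)⁻¹ * ((∏ i, ((t i : kˣ) : k)) ^ m * coeff e (ρ t)) := by
      rw [← mul_assoc, inv_mul_cancel₀ hP, one_mul]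
    rw [h2, h1, Finset.sum_apply, Finset.mul_sum]
    apply Finset.sum_congr rfl
    intro u _
    have h3 : (∏ i : Fin d ⊕ Fin n, (Sum.elim (fun i : Fin d => (C ((t i : kˣ) : k) : MvPolynomial (Fin n) k))
        (fun l : Fin n => (X l : MvPolynomial (Fin n) k)) i) ^ u i) =
        C (∏ i, ((t i : kˣ) : k) ^ u (Sum.inl i)) * ∏ l, (X l : MvPolynomial (Fin n) k) ^ u (Sum.inr l) := by
      rw [Fintype.prod_sum_type]
      simp only [Sum.elim_inl, Sum.elim_inr, map_prod, map_pow]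
    rw [h3, algebraMap_eq, coeff_C_mul, coeff_C_mul, Pi.smul_apply, smul_eq_mul]
    have h4 : ((Units.coeHom k).comp (φ u)) t =
        (∏ i, ((t i : kˣ) : k) ^ u (Sum.inl i)) * ((∏ i, ((t i : kˣ) : k)) ^ m)⁻¹ := by
      show ((((∏ i, t i ^ u (Sum.inl i)) * ((∏ i, t i) ^ m)⁻¹ : kˣ)) : k) = _
      rw [Units.val_mul, Units.val_inv_eq_inv_val, Units.val_pow_eq_pow_val, Units.coe_prod, Units.coe_prod]
      simp only [Units.val_pow_eq_pow_val]
    rw [h4]
    ring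
  rw [key]
  refine Submodule.sum_mem _ fun u _ => Submodule.smul_mem _ _ (Submodule.subset_span ⟨_, rfl⟩)

end Pool.Agent.L5helper13.TQ
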